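import Mathlib

/-!
# Reaching a regular polygon by vertex-centroid moves

The plane is `ℂ`. A move of `v i` is a scaling of `v i` from the centroid `C i v` of the other
vertices. Commutators of these moves translate `v i` by any multiple of `v j - C i v`, so in a
polygon whose vertices are not collinear every vertex can be moved anywhere.
-/

set_option autoImplicit false

namespace Pool.Agent.Results.MP_06c496_co.VertexCentroid

open Finset

/-- The vertex centroid. -/
noncomputable def centroid {n : ℕ} (v : Fin n → ℂ) : ℂ := (1 / (n : ℝ)) • ∑ i, v i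

/-- A vertex-centroid move: some `v i ≠ m` is replaced by a point of the line through `v i` and
`m`. -/
def Move {n : ℕ} (v v' : Fin n → ℂ) : Prop :=
  ∃ i, v i ≠ centroid v ∧ ∃ s : ℝ, v' = Function.update v i (v i + s • (centroid v - v i))

/-- Finite sequences of moves. -/
def Reach {n : ℕ} : (Fin n → ℂ) → (Fin n → ℂ) → Prop := Relation.ReflTransGen Move

/-- Regular `n`-gons, with the vertices in cyclic order. -/
def IsRegular {n : ℕ} (r : Fin n → ℂ) : Prop :=
  ∃ z w : ℂ, w ≠ 0 ∧ ∀ k, r k = z + w * Complex.exp (2 * Real.pi * Complex.I * ((k : ℕ) / n))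

/-- Simple polygons: distinct vertices, and two edges meet at most in a common vertex. -/
def IsSimple {n : ℕ} [NeZero n] (v : Fin n → ℂ) : Prop :=
  Function.Injective v ∧ ∀ k l : Fin n, k ≠ l →
    ∀ p ∈ segment ℝ (v k) (v (k + 1)) ∩ segment ℝ (v l) (v (l + 1)),
      (l = k + 1 ∧ p = v l) ∨ (k = l + 1 ∧ p = v k)

/-- The centroid of the other vertices. -/
noncomputable def C {n : ℕ} (i : Fin n) (v : Fin n → ℂ) : ℂ :=
  (1 / ((n : ℝ) - 1)) • ∑ l ∈ univ.erase i, v l

theorem C_update {n : ℕ} (i : Fin n) (v : Fin n → ℂ) (x : ℂ) : C i (Function.update v i x) = C i v := by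
  unfold C
  congr 1
  refine Finset.sum_congr rfl fun l hl => ?_
  rw [Function.update_of_ne (Finset.ne_of_mem_erase hl)]

theorem centroid_eq {n : ℕ} (hn : 3 ≤ n) (i : Fin n) (v : Fin n → ℂ) :
    centroid v = (1 / (n : ℝ)) • v i + (1 - 1 / (n : ℝ)) • C i v := by
  have hn' : (3 : ℝ) ≤ n := by exact_mod_cast hn
  have h1 : (n : ℝ) - 1 ≠ 0 := by linarith
  have h2 : (n : ℝ) ≠ 0 := by linarith
  unfold centroid C
  rw [← Finset.add_sum_erase univ v (Finset.mem_univ i), smul_add, smul_smul]
  congr 2
  field_simp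

/-- Scaling from the centroid of the others is a move, or does nothing. -/
theorem reach_scale {n : ℕ} (hn : 3 ≤ n) (i : Fin n) (v : Fin n → ℂ) (t : ℝ) :
    Reach v (Function.update v i (C i v + t • (v i - C i v))) := by
  have hn' : (3 : ℝ) ≤ n := by exact_mod_cast hn
  have h1 : (n : ℝ) - 1 ≠ 0 := by linarith
  have h2 : (n : ℝ) ≠ 0 := by linarith
  have hc := centroid_eq hn i v
  by_cases h : v i = centroid v
  · have h3 : v i = C i v := by
      have h4 : (1 - 1 / (n : ℝ)) • (v i - C i v) = 0 := by
        have h5 : v i = (1 / (n : ℝ)) • v i + (1 - 1 / (n : ℝ)) • C i v := h.trans hc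
        have h6 : (1 - 1 / (n : ℝ)) • (v i - C i v) =
          v i - ((1 / (n : ℝ)) • v i + (1 - 1 / (n : ℝ)) • C i v) := by module
        rw [h6, ← h5, sub_self]
      rcases smul_eq_zero.1 h4 with h5 | h5
      · exfalso
        field_simp at h5
        rw [mul_zero] at h5
        exact h1 h5
      · exact sub_eq_zero.1 h5
    have h4 : C i v + t • (v i - C i v) = v i := by rw [← h3]; simp
    rw [h4, Function.update_eq_self]
    exact Relation.ReflTransGen.refl
  · refine Relation.ReflTransGen.single ⟨i, h, (1 - t) * (n / (n - 1)), ?_⟩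
    congr 1
    have h3 : centroid v - v i = ((n - 1) / n : ℝ) • (C i v - v i) := by
      rw [hc]
      have : ((n - 1) / n : ℝ) = 1 - 1 / n := by field_simp
      rw [this]
      module
    rw [h3, smul_smul]
    have h4 : (1 - t) * ((n : ℝ) / (n - 1)) * ((n - 1) / n) = 1 - t := by field_simp
    rw [h4]
    module

section Pair

variable {n : ℕ} (v : Fin n → ℂ) (i j : Fin n)

/-- The centroid of the vertices other than `i` and `j`. -/
noncomputable def g : ℂ := (1 / ((n : ℝ) - 2)) • ∑ l ∈ (univ.erase i).erase j, v l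

/-- The polygon with the vertices `i` and `j` replaced. -/
noncomputable def conf (X Y : ℂ) : Fin n → ℂ :=
  Function.update (Function.update v i (g v i j + X)) j (g v i j + Y)

variable {i j}

theorem sum_conf_i (hij : i ≠ j) (X Y : ℂ) : ∑ l ∈ univ.erase i, conf v i j X Y l =
    g v i j + Y + ∑ l ∈ (univ.erase i).erase j, v l := by
  rw [← Finset.add_sum_erase (univ.erase i) _ (Finset.mem_erase.2 ⟨hij.symm, Finset.mem_univ j⟩)]
  congr 1
  · simp [conf]
  · refine Finset.sum_congr rfl fun l hl => ?_
    have h1 := Finset.ne_of_mem_erase hl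
    have h2 := Finset.ne_of_mem_erase (Finset.mem_of_mem_erase hl)
    rw [conf, Function.update_of_ne h1, Function.update_of_ne h2]

theorem sum_conf_j (hij : i ≠ j) (X Y : ℂ) : ∑ l ∈ univ.erase j, conf v i j X Y l =
    g v i j + X + ∑ l ∈ (univ.erase i).erase j, v l := by
  rw [← Finset.add_sum_erase (univ.erase j) _ (Finset.mem_erase.2 ⟨hij, Finset.mem_univ i⟩)]
  congr 1
  · rw [conf, Function.update_of_ne hij, Function.update_self]
  · rw [Finset.erase_right_comm]
    refine Finset.sum_congr rfl fun l hl => ?_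
    have h1 := Finset.ne_of_mem_erase hl
    have h2 := Finset.ne_of_mem_erase (Finset.mem_of_mem_erase hl)
    rw [conf, Function.update_of_ne h1, Function.update_of_ne h2]

theorem sum_others (hn : 3 ≤ n) :
    ∑ l ∈ (univ.erase i).erase j, v l = ((n : ℝ) - 2) • g v i j := by
  have hn' : (3 : ℝ) ≤ n := by exact_mod_cast hn
  have h1 : (n : ℝ) - 2 ≠ 0 := by linarith
  rw [g, smul_smul, mul_one_div_cancel h1, one_smul]

theorem C_conf_i (hn : 3 ≤ n) (hij : i ≠ j) (X Y : ℂ) :
    C i (conf v i j X Y) = g v i j + (1 / ((n : ℝ) - 1)) • Y := by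
  have hn' : (3 : ℝ) ≤ n := by exact_mod_cast hn
  have h1 : (n : ℝ) - 1 ≠ 0 := by linarith
  rw [C, sum_conf_i v hij, sum_others v hn]
  have : g v i j + Y + ((n : ℝ) - 2) • g v i j = ((n : ℝ) - 1) • g v i j + Y := by module
  rw [this, smul_add, smul_smul, one_div_mul_cancel h1, one_smul]

theorem C_conf_j (hn : 3 ≤ n) (hij : i ≠ j) (X Y : ℂ) :
    C j (conf v i j X Y) = g v i j + (1 / ((n : ℝ) - 1)) • X := by
  have hn' : (3 : ℝ) ≤ n := by exact_mod_cast hn
  have h1 : (n : ℝ) - 1 ≠ 0 := by linarith
  rw [C, sum_conf_j v hij, sum_others v hn]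
  have : g v i j + X + ((n : ℝ) - 2) • g v i j = ((n : ℝ) - 1) • g v i j + X := by module
  rw [this, smul_add, smul_smul, one_div_mul_cancel h1, one_smul]

theorem update_conf_i (hij : i ≠ j) (X Y X' x : ℂ) (h : x = g v i j + X') :
    Function.update (conf v i j X Y) i x = conf v i j X' Y := by
  subst h
  funext l
  by_cases h1 : l = j
  · subst h1
    rw [Function.update_of_ne hij.symm, conf, conf, Function.update_self, Function.update_self]
  · by_cases h2 : l = i
    · subst h2
      rw [Function.update_self, conf, Function.update_of_ne h1, Function.update_self]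
    · rw [Function.update_of_ne h2, conf, conf, Function.update_of_ne h1, Function.update_of_ne h1,
        Function.update_of_ne h2, Function.update_of_ne h2]

theorem update_conf_j (X Y Y' y : ℂ) (h : y = g v i j + Y') :
    Function.update (conf v i j X Y) j y = conf v i j X Y' := by
  subst h
  rw [conf, conf, Function.update_idem]

theorem step_i (hn : 3 ≤ n) (hij : i ≠ j) (X Y X' : ℂ) (t : ℝ)
    (hX' : X' = t • X + (1 / ((n : ℝ) - 1) * (1 - t)) • Y) :
    Reach (conf v i j X Y) (conf v i j X' Y) := by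
  have h := reach_scale hn i (conf v i j X Y) t
  rw [C_conf_i v hn hij] at h
  have h1 : conf v i j X Y i = g v i j + X := by
    rw [conf, Function.update_of_ne hij, Function.update_self]
  rw [h1] at h
  rwa [update_conf_i v hij X Y X' _ (by rw [hX']; module)] at h

theorem step_j (hn : 3 ≤ n) (hij : i ≠ j) (X Y Y' : ℂ) (t : ℝ)
    (hY' : Y' = t • Y + (1 / ((n : ℝ) - 1) * (1 - t)) • X) :
    Reach (conf v i j X Y) (conf v i j X Y') := by
  have h := reach_scale hn j (conf v i j X Y) t
  rw [C_conf_j v hn hij] at h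
  have h1 : conf v i j X Y j = g v i j + Y := by
    rw [conf, Function.update_self]
  rw [h1] at h
  rwa [update_conf_j v X Y Y' _ (by rw [hY']; module)] at h

/-- The basic word. -/
theorem word (hn : 3 ≤ n) (hij : i ≠ j) (X Y : ℂ) (k : ℝ) (hk : k = 1 / ((n : ℝ) - 1))
    (h1 : 1 - k ^ 2 ≠ 0) :
    Reach (conf v i j X Y)
      (conf v i j ((-1 / (1 - k ^ 2)) • X + (k * (3 - 2 * k ^ 2) / (1 - k ^ 2)) • Y)
        ((3 - 2 * k ^ 2) • Y)) := by
  set b : ℝ := (3 - 2 * k ^ 2) / (2 * (1 - k ^ 2)) with hb
  have s1 := step_j v hn hij X Y (b • Y + (k * (1 - b)) • X) b (by rw [hk])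
  have s2 := step_i v hn hij X (b • Y + (k * (1 - b)) • X)
    ((-1 / (1 - k ^ 2)) • X + (k * (3 - 2 * k ^ 2) / (1 - k ^ 2)) • Y) (-1) (by
      rw [← hk, hb]
      match_scalars
      · field_simp
        ring
      · field_simp
        ring)
  have s3 := step_j v hn hij
    ((-1 / (1 - k ^ 2)) • X + (k * (3 - 2 * k ^ 2) / (1 - k ^ 2)) • Y)
    (b • Y + (k * (1 - b)) • X) ((3 - 2 * k ^ 2) • Y) 2 (by
      rw [← hk, hb]
      match_scalars
      · field_simp
        ring
      · field_simp
        ring)
  exact (s1.trans s2).trans s3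

/-- The inverse word. -/
theorem word_inv (hn : 3 ≤ n) (hij : i ≠ j) (X Y : ℂ) (k : ℝ) (hk : k = 1 / ((n : ℝ) - 1))
    (h1 : 1 - k ^ 2 ≠ 0) (h2 : 3 - 2 * k ^ 2 ≠ 0) :
    Reach (conf v i j X Y)
      (conf v i j ((-(1 - k ^ 2)) • X + k • Y) ((1 / (3 - 2 * k ^ 2)) • Y)) := by
  set b : ℝ := (3 - 2 * k ^ 2) / (2 * (1 - k ^ 2)) with hb
  have hb0 : b ≠ 0 := by
    rw [hb]
    exact div_ne_zero h2 (mul_ne_zero two_ne_zero h1)
  have s1 := step_j v hn hij X Y ((1 / 2 : ℝ) • Y + (k / 2) • X) (1 / 2) (by
      rw [← hk]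
      module)
  have s2 := step_i v hn hij X ((1 / 2 : ℝ) • Y + (k / 2) • X)
    ((-(1 - k ^ 2)) • X + k • Y) (-1) (by
      rw [← hk]
      module)
  have s3 := step_j v hn hij ((-(1 - k ^ 2)) • X + k • Y)
    ((1 / 2 : ℝ) • Y + (k / 2) • X) ((1 / (3 - 2 * k ^ 2)) • Y) (1 / b) (by
      rw [← hk, hb]
      match_scalars
      · field_simp
        ring
      · field_simp
        ring)
  exact (s1.trans s2).trans s3

/-- Transvections, except for one value. -/
theorem trans_aux (hn : 3 ≤ n) (hij : i ≠ j) (X Y : ℂ) (k t : ℝ) (hk : k = 1 / ((n : ℝ) - 1))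
    (ht : t ≠ 0) :
    Reach (conf v i j X Y)
      (conf v i j (X + (-(1 - t) * (k * (1 - 2 * k ^ 2) / (3 - 2 * k ^ 2))) • Y) Y) := by
  have hn' : (3 : ℝ) ≤ n := by exact_mod_cast hn
  have hk0 : 0 < k := by rw [hk]; apply one_div_pos.2; linarith
  have hk1 : k ≤ 1 / 2 := by
    rw [hk]
    apply one_div_le_one_div_of_le <;> linarith
  have h1 : 1 - k ^ 2 ≠ 0 := by nlinarith
  have h2 : 3 - 2 * k ^ 2 ≠ 0 := by nlinarith
  have s1 := step_i v hn hij X Y ((1 / t) • X + (k * (1 - 1 / t)) • Y) (1 / t) (by rw [← hk])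
  have s2 := word_inv v hn hij ((1 / t) • X + (k * (1 - 1 / t)) • Y) Y k hk h1 h2
  have s3 := step_i v hn hij _ ((1 / (3 - 2 * k ^ 2)) • Y)
    (t • ((-(1 - k ^ 2)) • ((1 / t) • X + (k * (1 - 1 / t)) • Y) + k • Y) +
      (k * (1 - t)) • ((1 / (3 - 2 * k ^ 2)) • Y)) t (by rw [← hk])
  have s4 := word v hn hij
    (t • ((-(1 - k ^ 2)) • ((1 / t) • X + (k * (1 - 1 / t)) • Y) + k • Y) +
      (k * (1 - t)) • ((1 / (3 - 2 * k ^ 2)) • Y)) ((1 / (3 - 2 * k ^ 2)) • Y) k hk h1
  have s5 := ((s1.trans s2).trans s3).trans s4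
  have e1 : (3 - 2 * k ^ 2) • ((1 / (3 - 2 * k ^ 2)) • Y) = Y := by
    rw [smul_smul, mul_one_div_cancel h2, one_smul]
  rw [e1] at s5
  have e2 : (-1 / (1 - k ^ 2)) • (t • ((-(1 - k ^ 2)) • ((1 / t) • X + (k * (1 - 1 / t)) • Y) +
      k • Y) + (k * (1 - t)) • ((1 / (3 - 2 * k ^ 2)) • Y)) +
      (k * (3 - 2 * k ^ 2) / (1 - k ^ 2)) • ((1 / (3 - 2 * k ^ 2)) • Y) =
      X + (-(1 - t) * (k * (1 - 2 * k ^ 2) / (3 - 2 * k ^ 2))) • Y := by
    obtain ⟨δ, hδ⟩ : ∃ δ, δ = 3 - 2 * k ^ 2 := ⟨_, rfl⟩
    obtain ⟨η, hη⟩ : ∃ η, η = 1 - k ^ 2 := ⟨_, rfl⟩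
    rw [← hδ, ← hη]
    rw [← hδ] at h2
    rw [← hη] at h1
    match_scalars
    · field_simp
    · field_simp
      rw [hδ, hη]
      ring
  rwa [e2] at s5

/-- Transvections. -/
theorem trans_conf (hn : 3 ≤ n) (hij : i ≠ j) (X Y : ℂ) (c : ℝ) :
    Reach (conf v i j X Y) (conf v i j (X + c • Y) Y) := by
  have hn' : (3 : ℝ) ≤ n := by exact_mod_cast hn
  set k : ℝ := 1 / ((n : ℝ) - 1) with hk
  have hk0 : 0 < k := by rw [hk]; apply one_div_pos.2; linarith
  have hk1 : k ≤ 1 / 2 := by
    rw [hk]
    apply one_div_le_one_div_of_le <;> linarith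
  set κ : ℝ := k * (1 - 2 * k ^ 2) / (3 - 2 * k ^ 2) with hκ
  have hκ0 : 0 < κ := by
    have h1 : 0 < 1 - 2 * k ^ 2 := by nlinarith
    have h2 : 0 < 3 - 2 * k ^ 2 := by nlinarith
    positivity
  have key : ∀ (X : ℂ) (c : ℝ), c ≠ -κ → Reach (conf v i j X Y) (conf v i j (X + c • Y) Y) := by
    intro X c hc
    have h := trans_aux v hn hij X Y k (1 + c / κ) hk (by
      intro h
      apply hc
      field_simp at h
      linarith)
    rw [← hκ] at h
    have e : -(1 - (1 + c / κ)) * κ = c := by
      field_simp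
      ring
    rwa [e] at h
  by_cases hc : c = -κ
  · have h1 := key X (c / 2) (by rw [hc]; linarith)
    have h2 := key (X + (c / 2) • Y) (c / 2) (by rw [hc]; linarith)
    have e : X + (c / 2) • Y + (c / 2) • Y = X + c • Y := by module
    rw [e] at h2
    exact h1.trans h2
  · exact key X c hc

/-- `v i` can be translated by multiples of `v j - C i v`. -/
theorem reach_trans (hn : 3 ≤ n) (hij : i ≠ j) (c : ℝ) :
    Reach v (Function.update v i (v i + c • (v j - C i v))) := by
  have hn' : (3 : ℝ) ≤ n := by exact_mod_cast hn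
  have h1 : (n : ℝ) - 1 ≠ 0 := by linarith
  have h2 : (n : ℝ) - 2 ≠ 0 := by linarith
  have e0 : conf v i j (v i - g v i j) (v j - g v i j) = v := by
    rw [conf]
    funext l
    by_cases hl : l = j
    · subst hl
      rw [Function.update_self]
      ring
    · by_cases hl' : l = i
      · subst hl'
        rw [Function.update_of_ne hl, Function.update_self]
        ring
      · rw [Function.update_of_ne hl, Function.update_of_ne hl']
  have h := trans_conf v hn hij (v i - g v i j) (v j - g v i j) (c * ((n - 2) / (n - 1)))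
  have hC : C i v = g v i j + (1 / ((n : ℝ) - 1)) • (v j - g v i j) := by
    rw [← C_conf_i v hn hij (v i - g v i j) (v j - g v i j), e0]
  have e1 : conf v i j (v i - g v i j + (c * ((n - 2) / (n - 1) : ℝ)) • (v j - g v i j))
      (v j - g v i j) = Function.update v i (v i + c • (v j - C i v)) := by
    rw [← update_conf_i v hij (v i - g v i j) (v j - g v i j)
      (v i - g v i j + (c * ((n - 2) / (n - 1) : ℝ)) • (v j - g v i j))
      (v i + c • (v j - C i v)) (by
        rw [hC]
        match_scalars
        · ring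
        · field_simp
          ring
        · field_simp
          ring), e0]
  rwa [e0, e1] at h

end Pair

/-- The determinant of two vectors of the plane. -/
def cross (a b : ℂ) : ℝ := a.re * b.im - a.im * b.re

theorem cramer {a b : ℂ} (h : cross a b ≠ 0) (q : ℂ) :
    q = (cross q b / cross a b) • a + (cross a q / cross a b) • b := by
  apply Complex.ext
  · simp only [Complex.add_re, Complex.smul_re, smul_eq_mul]
    field_simp
    unfold cross
    ring
  · simp only [Complex.add_im, Complex.smul_im, smul_eq_mul]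
    field_simp
    unfold cross
    ring

theorem cross_sub (a b c : ℂ) : cross (b - a) (c - a) = cross b c - cross b a - cross a c := by
  unfold cross
  simp only [Complex.sub_re, Complex.sub_im]
  ring

section Plane

variable {n : ℕ}

/-- Two independent directions. -/
theorem reach_two (hn : 3 ≤ n) (v : Fin n → ℂ) {i a b : Fin n} (ha : i ≠ a) (hb : i ≠ b)
    (h : cross (v a - C i v) (v b - C i v) ≠ 0) (q : ℂ) : Reach v (Function.update v i q) := by
  set x : ℝ := cross (q - v i) (v b - C i v) / cross (v a - C i v) (v b - C i v)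
  set y : ℝ := cross (v a - C i v) (q - v i) / cross (v a - C i v) (v b - C i v)
  have hq : q - v i = x • (v a - C i v) + y • (v b - C i v) := cramer h (q - v i)
  have h1 := reach_trans v hn ha x
  have h2 := reach_trans (Function.update v i (v i + x • (v a - C i v))) hn hb y
  rw [C_update, Function.update_self, Function.update_of_ne hb.symm, Function.update_idem] at h2
  have e : v i + x • (v a - C i v) + y • (v b - C i v) = q := by
    rw [add_assoc, ← hq]
    ring
  rw [e] at h2
  exact h1.trans h2

/-- One direction and the scaling. -/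
theorem reach_one (hn : 3 ≤ n) (v : Fin n → ℂ) {i a : Fin n} (ha : i ≠ a)
    (h : cross (v a - C i v) (v i - C i v) ≠ 0) (q : ℂ) : Reach v (Function.update v i q) := by
  set x : ℝ := cross (q - C i v) (v i - C i v) / cross (v a - C i v) (v i - C i v)
  set y : ℝ := cross (v a - C i v) (q - C i v) / cross (v a - C i v) (v i - C i v)
  have hq : q - C i v = x • (v a - C i v) + y • (v i - C i v) := cramer h (q - C i v)
  have h1 := reach_scale hn i v y
  have h2 := reach_trans (Function.update v i (C i v + y • (v i - C i v))) hn ha x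
  rw [C_update, Function.update_self, Function.update_of_ne ha.symm, Function.update_idem] at h2
  have e : C i v + y • (v i - C i v) + x • (v a - C i v) = q := by
    have : C i v + y • (v i - C i v) + x • (v a - C i v) =
      C i v + (x • (v a - C i v) + y • (v i - C i v)) := by ring
    rw [this, ← hq]
    ring
  rw [e] at h2
  exact h1.trans h2

/-- A vertex outside of a noncollinear triple can be moved anywhere. -/
theorem reach_outside (hn : 3 ≤ n) (v : Fin n → ℂ) {i a b c : Fin n} (ha : i ≠ a) (hb : i ≠ b)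
    (hc : i ≠ c) (h : cross (v b - v a) (v c - v a) ≠ 0) (q : ℂ) :
    Reach v (Function.update v i q) := by
  have e : cross (v b - v a) (v c - v a) =
      cross (v b - C i v) (v c - C i v) - cross (v b - C i v) (v a - C i v) -
        cross (v a - C i v) (v c - C i v) := by
    rw [← cross_sub]
    congr 1 <;> ring
  by_cases h1 : cross (v b - C i v) (v c - C i v) = 0
  · by_cases h2 : cross (v b - C i v) (v a - C i v) = 0
    · refine reach_two hn v ha hc ?_ q
      intro h3
      apply h
      rw [e, h1, h2, h3]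
      ring
    · exact reach_two hn v hb ha h2 q
  · exact reach_two hn v hb hc h1 q

/-- A vertex of a noncollinear triple can be moved anywhere. -/
theorem reach_inside (hn : 3 ≤ n) (v : Fin n → ℂ) {i a b : Fin n} (ha : i ≠ a) (hb : i ≠ b)
    (h : cross (v b - v a) (v i - v a) ≠ 0) (q : ℂ) :
    Reach v (Function.update v i q) := by
  have e : cross (v b - v a) (v i - v a) =
      cross (v b - C i v) (v i - C i v) - cross (v b - C i v) (v a - C i v) -
        cross (v a - C i v) (v i - C i v) := by
    rw [← cross_sub]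
    congr 1 <;> ring
  by_cases h1 : cross (v b - C i v) (v i - C i v) = 0
  · by_cases h2 : cross (v b - C i v) (v a - C i v) = 0
    · refine reach_one hn v ha ?_ q
      intro h3
      apply h
      rw [e, h1, h2, h3]
      ring
    · exact reach_two hn v hb ha h2 q
  · exact reach_one hn v hb h1 q

/-- Moving all vertices outside of a noncollinear triple. -/
theorem reach_many (hn : 3 ≤ n) (v r : Fin n → ℂ) {a b c : Fin n}
    (h : cross (v b - v a) (v c - v a) ≠ 0) (s : Finset (Fin n)) (ha : a ∉ s) (hb : b ∉ s)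
    (hc : c ∉ s) : Reach v (fun l => if l ∈ s then r l else v l) := by
  induction s using Finset.induction_on with
  | empty =>
    simp only [Finset.notMem_empty, if_false]
    exact Relation.ReflTransGen.refl
  | insert i s hi ih =>
    simp only [Finset.mem_insert, not_or] at ha hb hc
    have h1 := ih ha.2 hb.2 hc.2
    have h2 := reach_outside hn (fun l => if l ∈ s then r l else v l) (i := i) (a := a) (b := b)
      (c := c) (Ne.symm ha.1) (Ne.symm hb.1) (Ne.symm hc.1)
      (by simpa only [ha.2, hb.2, hc.2, if_false] using h) (r i)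
    refine h1.trans ?_
    have e : (fun l => if l ∈ insert i s then r l else v l) =
        Function.update (fun l => if l ∈ s then r l else v l) i (r i) := by
      funext l
      by_cases hl : l = i
      · subst hl
        simp
      · rw [Function.update_of_ne hl]
        simp [hl]
    rw [e]
    exact h2

/-- There is a regular polygon through two prescribed vertices. -/
theorem exists_regular (hn : 3 ≤ n) {a b : Fin n} (hab : a ≠ b) {p q : ℂ} (hpq : p ≠ q) :
    ∃ r : Fin n → ℂ, IsRegular r ∧ r a = p ∧ r b = q := by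
  set ω : Fin n → ℂ := fun k => Complex.exp (2 * Real.pi * Complex.I * ((k : ℕ) / n)) with hω
  have hn0 : (n : ℂ) ≠ 0 := by
    have : n ≠ 0 := by omega
    exact_mod_cast this
  have hne : ω a ≠ ω b := by
    intro h
    simp only [hω] at h
    rw [Complex.exp_eq_exp_iff_exists_int] at h
    obtain ⟨m, hm⟩ := h
    have h1 : (2 * Real.pi * Complex.I : ℂ) ≠ 0 := Complex.two_pi_I_ne_zero
    have h2 : ((a : ℕ) : ℂ) / n = (b : ℕ) / n + m := by
      apply mul_left_cancel₀ h1
      rw [hm]
      ring
    have h3 : ((a : ℕ) : ℂ) = (b : ℕ) + m * n := by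
      field_simp at h2
      linear_combination h2
    have h4 : ((a : ℕ) : ℤ) = (b : ℕ) + m * n := by exact_mod_cast h3
    have ha := a.2
    have hb := b.2
    have h5 : m = 0 := by
      by_contra hm0
      rcases lt_or_gt_of_ne hm0 with h6 | h6
      · have : m * n ≤ -1 * n := by
          apply mul_le_mul_of_nonneg_right <;> omega
        omega
      · have : 1 * (n : ℤ) ≤ m * n := by
          apply mul_le_mul_of_nonneg_right <;> omega
        omega
    rw [h5] at h4
    apply hab
    apply Fin.ext
    omega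
  have hne' : ω a - ω b ≠ 0 := sub_ne_zero.2 hne
  refine ⟨fun k => (p - (p - q) / (ω a - ω b) * ω a) + (p - q) / (ω a - ω b) * ω k,
    ⟨_, _, div_ne_zero (sub_ne_zero.2 hpq) hne', fun k => rfl⟩, by ring, ?_⟩
  have : (p - q) / (ω a - ω b) * (ω a - ω b) = p - q := div_mul_cancel₀ _ hne'
  linear_combination -this

/-- Noncollinear polygons can be made regular. -/
theorem reach_regular (hn : 3 ≤ n) (v : Fin n → ℂ) {a b c : Fin n}
    (h : cross (v b - v a) (v c - v a) ≠ 0) : ∃ r, Reach v r ∧ IsRegular r := by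
  have hva : v b ≠ v a := by
    intro h1
    apply h
    rw [h1]
    simp [cross]
  have hab : a ≠ b := fun h1 => hva (by rw [h1])
  have hca : c ≠ a := by
    rintro rfl
    apply h
    simp [cross]
  have hcb : c ≠ b := by
    rintro rfl
    apply h
    unfold cross
    ring
  obtain ⟨r, hr, hra, hrb⟩ := exists_regular hn hab (p := v a) (q := v b) hva.symm
  refine ⟨r, ?_, hr⟩
  have h1 := reach_many hn v r h (((univ.erase a).erase b).erase c) (by simp) (by simp) (by simp)
  set v' : Fin n → ℂ := fun l => if l ∈ ((univ.erase a).erase b).erase c then r l else v l with hv'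
  have ea : v' a = v a := by simp [hv']
  have eb : v' b = v b := by simp [hv']
  have ec : v' c = v c := by simp [hv']
  have h2 := reach_inside hn v' (i := c) (a := a) (b := b) hca hcb (by rw [ea, eb, ec]; exact h)
    (r c)
  have e : Function.update v' c (r c) = r := by
    funext l
    by_cases hl : l = c
    · subst hl
      rw [Function.update_self]
    · rw [Function.update_of_ne hl]
      by_cases hl1 : l = a
      · rw [hl1, ea, hra]
      · by_cases hl2 : l = b
        · rw [hl2, eb, hrb]
        · simp [hv', hl, hl1, hl2]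
  rw [e] at h2
  exact h1.trans h2

/-- If all determinants vanish, the points are collinear. -/
theorem exists_cross {v : Fin n → ℂ} (hv : ¬ Collinear ℝ (Set.range v)) :
    ∃ a b c, cross (v b - v a) (v c - v a) ≠ 0 := by
  by_contra hcon
  push Not at hcon
  apply hv
  rcases isEmpty_or_nonempty (Fin n) with h | ⟨⟨a⟩⟩
  · rw [Set.range_eq_empty]
    exact collinear_empty ℝ ℂ
  by_cases hb : ∃ b, v b ≠ v a
  · obtain ⟨b, hb⟩ := hb
    rw [collinear_iff_of_mem (Set.mem_range_self a)]
    refine ⟨v b - v a, ?_⟩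
    rintro _ ⟨c, rfl⟩
    have h1 := hcon a b c
    have h2 : v b - v a ≠ 0 := sub_ne_zero.2 hb
    -- c - a is a multiple of b - a
    set d := v b - v a
    set f := v c - v a with hf
    have h3 : 0 < d.re ^ 2 + d.im ^ 2 := by
      rcases eq_or_ne d.re 0 with h4 | h4
      · have h5 : d.im ≠ 0 := fun h5 => h2 (Complex.ext h4 h5)
        positivity
      · positivity
    refine ⟨(f.re * d.re + f.im * d.im) / (d.re ^ 2 + d.im ^ 2), ?_⟩
    have h4 : f = ((f.re * d.re + f.im * d.im) / (d.re ^ 2 + d.im ^ 2)) • d := by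
      unfold cross at h1
      apply Complex.ext
      · simp only [Complex.smul_re, smul_eq_mul]
        field_simp
        linear_combination (-d.im) * h1
      · simp only [Complex.smul_im, smul_eq_mul]
        field_simp
        linear_combination (d.re) * h1
    rw [← h4, hf]
    simp
  · push Not at hb
    have : Set.range v = {v a} := by
      ext p
      constructor
      · rintro ⟨c, rfl⟩
        exact hb c
      · rintro rfl
        exact ⟨a, rfl⟩
    rw [this]
    exact collinear_singleton ℝ _

theorem mem_segment {p₀ d x y z : ℂ} {s t u : ℝ} (hx : x = s • d +ᵥ p₀) (hy : y = t • d +ᵥ p₀)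
    (hz : z = u • d +ᵥ p₀) (h1 : s < u) (h2 : u ≤ t) : z ∈ segment ℝ x y := by
  have h3 : 0 < t - s := by linarith
  refine ⟨(t - u) / (t - s), (u - s) / (t - s), by apply div_nonneg <;> linarith,
    by apply div_nonneg <;> linarith, by field_simp; ring, ?_⟩
  rw [hx, hy, hz]
  simp only [vadd_eq_add]
  match_scalars
  · field_simp
    ring
  · field_simp
    ring

/-- The vertices of a simple polygon are not collinear. -/
theorem not_collinear_of_simple [NeZero n] (hn : 3 ≤ n) (v : Fin n → ℂ) (hv : IsSimple v) :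
    ¬ Collinear ℝ (Set.range v) := by
  intro hc
  rw [collinear_iff_exists_forall_eq_smul_vadd] at hc
  obtain ⟨p₀, d, h⟩ := hc
  have h' : ∀ k, ∃ r : ℝ, v k = r • d +ᵥ p₀ := fun k => h _ ⟨k, rfl⟩
  choose t ht using h'
  have htinj : Function.Injective t := by
    intro a b hab
    apply hv.1
    rw [ht a, ht b, hab]
  obtain ⟨k, hk⟩ := Finite.exists_min t
  have zero_val : ((0 : Fin n) : ℕ) = 0 := by simp
  have one_ne : (1 : Fin n) ≠ 0 := by
    intro h
    have h1 := congrArg Fin.val h
    rw [Fin.val_one', zero_val] at h1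
    rw [Nat.mod_eq_of_lt (by omega)] at h1
    omega
  have two_ne : (1 : Fin n) + 1 ≠ 0 := by
    intro h
    have h1 := congrArg Fin.val h
    rw [Fin.val_add, Fin.val_one', zero_val] at h1
    rw [Nat.mod_eq_of_lt (show 1 < n by omega), Nat.mod_eq_of_lt (by omega)] at h1
    omega
  have ha : k - 1 ≠ k := by
    intro h
    apply one_ne
    have := sub_eq_self.1 h
    exact this
  have hb : k + 1 ≠ k := by
    intro h
    apply one_ne
    exact add_eq_left.1 h
  have hab : k - 1 ≠ k + 1 := by
    intro h
    apply two_ne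
    have h1 : k - 1 + 1 = k + 1 + 1 := by rw [h]
    rw [sub_add_cancel, add_assoc] at h1
    exact add_eq_left.1 h1.symm
  have ta : t k < t (k - 1) := lt_of_le_of_ne (hk _) fun h => ha (htinj h).symm
  have tb : t k < t (k + 1) := lt_of_le_of_ne (hk _) fun h => hb (htinj h).symm
  have e : k - 1 + 1 = k := sub_add_cancel k 1
  rcases le_total (t (k - 1)) (t (k + 1)) with h1 | h1
  · have h2 : v (k - 1) ∈ segment ℝ (v k) (v (k + 1)) := mem_segment (ht _) (ht _) (ht _) ta h1
    have h3 : v (k - 1) ∈ segment ℝ (v (k - 1)) (v (k - 1 + 1)) := left_mem_segment _ _ _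
    rcases hv.2 k (k - 1) ha.symm _ ⟨h2, h3⟩ with ⟨h4, -⟩ | ⟨-, h4⟩
    · exact hab h4
    · exact ha (hv.1 h4)
  · have h2 : v (k + 1) ∈ segment ℝ (v (k - 1)) (v (k - 1 + 1)) := by
      rw [e, segment_symm]
      exact mem_segment (ht _) (ht _) (ht _) tb h1
    have h3 : v (k + 1) ∈ segment ℝ (v k) (v (k + 1)) := right_mem_segment _ _ _
    rcases hv.2 k (k - 1) ha.symm _ ⟨h3, h2⟩ with ⟨h4, -⟩ | ⟨-, h4⟩
    · exact hab h4
    · exact hb (hv.1 h4)

/-- **Every simple polygon, and every polygon with noncollinear vertices, can be carried to a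
regular polygon by vertex-centroid moves.** -/
theorem result (n : ℕ) [NeZero n] (hn : 3 ≤ n) (v : Fin n → ℂ)
    (hv : IsSimple v ∨ ¬ Collinear ℝ (Set.range v)) : ∃ r, Reach v r ∧ IsRegular r := by
  obtain ⟨a, b, c, h⟩ := exists_cross
    (hv.elim (fun h => not_collinear_of_simple hn v h) fun h => h)
  exact reach_regular hn v h

end Plane

end Pool.Agent.Results.MP_06c496_co.VertexCentroid
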